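import Mathlib
import Pool.Agent.X132.RevG

/-!
# Proper fractional revival with a support eigenvalue of degree at least three
-/

namespace Pool.Agent.Results.MP_884c22_co.DegreeFourSupport

open Matrix Complex Pool.Agent.X132.FR Pool.Agent.X132.Rev Polynomial

variable {V : Type} [Fintype V] [DecidableEq V]

/-- Proper fractional revival on `{a, b}`. -/
def ProperRevival (X : SimpleGraph V) [DecidableRel X.Adj] (a b : V) : Prop :=
  ∃ (τ : ℝ) (α β : ℂ), 0 < τ ∧ α * β ≠ 0 ∧ walk (X.adjMatrix ℂ) τ *ᵥ Pi.single a 1 =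
    α • (Pi.single a 1 : V → ℂ) + β • (Pi.single b 1 : V → ℂ)

/-- The eigenvalue support of `a`: the eigenvalues `θ` with `E_θ e_a ≠ 0`. -/
def support (X : SimpleGraph V) [DecidableRel X.Adj] (a : V) : Set ℝ :=
  {θ | (Module.End.eigenspace (Matrix.toEuclideanLin (X.adjMatrix ℝ)) θ).starProjection
    (EuclideanSpace.single a (1 : ℝ)) ≠ 0}

/-- The largest eigenvalue in the support. -/
noncomputable def top : ℝ := mid gp + 924 * √37

theorem top_mem : top ∈ support graphB (.inl false : Vert 121968 mB) := by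
  have h37 : (0 : ℝ) < √37 := by positivity
  have h5 : (0 : ℝ) < √5 := by positivity
  have hp := cubicB gp_sq sq37
  have hm := cubicB gm_sq sq37
  have hsub := mid_sub
  unfold mid at hsub
  -- reorder the roots
  have hp' : X132.Rev.Cubic (graphB.adjMatrix ℝ) (two (.inl false) (.inl true) gp)
      (924 * (1 + 2 * gp) + 924 * √37) (924 * (1 + 2 * gp)) (924 * (1 + 2 * gp) - 924 * √37) := by
    intro v
    rw [hp v]
    ring
  have e := eproj_a graphB_symm gp_ne hp' hm (by intro h; linarith) (by intro h; linarith)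
    (fun h => roots_ne2 0 (Or.inl rfl) (by linarith))
    (fun h => roots_ne2 _ (Or.inr (Or.inl rfl)) (by linarith))
    (fun h => roots_ne2 _ (Or.inr (Or.inr rfl)) (by linarith)) (.inl false)
  obtain ⟨g1, g2, g3⟩ := lev_a gp
  rw [g1, g2, g3, gp_sub] at e
  have hne : eproj (graphB.adjMatrix ℝ) (924 * (1 + 2 * gp) + 924 * √37) (.inl false)
      (.inl false) ≠ 0 := by
    rw [e]
    have hgm : -gm ≠ 0 := by
      intro h
      have := gm_sq
      rw [neg_eq_zero.1 h] at this
      norm_num at this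
    refine mul_ne_zero (div_ne_zero hgm h5.ne') (mul_ne_zero (inv_ne_zero (mul_ne_zero ?_ ?_)) ?_)
    · intro h; linarith
    · intro h; linarith
    · have h6 : √37 < 6.1 := by
        rw [show (6.1 : ℝ) = √(6.1 ^ 2) by rw [Real.sqrt_sq (by norm_num)]]
        exact Real.sqrt_lt_sqrt (by norm_num) (by norm_num)
      have h7 : √5 < 3 := by
        rw [show (3 : ℝ) = √(3 ^ 2) by rw [Real.sqrt_sq (by norm_num)]]
        exact Real.sqrt_lt_sqrt (by norm_num) (by norm_num)
      have hW : 6830208 + 3415104 * gp - (924 * (1 + 2 * gp) +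
          (924 * (1 + 2 * gp) - 924 * √37)) * 0 + 924 * (1 + 2 * gp) *
          (924 * (1 + 2 * gp) - 924 * √37) * 1 =
          853776 * (19 + 6 * √5 - (2 + √5) * √37) := by
        unfold gp
        linear_combination 853776 * sq5
      rw [hW]
      have : 0 < 19 + 6 * √5 - (2 + √5) * √37 := by nlinarith
      exact (mul_pos (by norm_num) this).ne'
  intro h0
  apply hne
  unfold top mid at h0
  unfold eproj
  rw [h0]
  rfl

theorem indep {c0 c1 c2 : ℚ} (h : (c0 : ℝ) + c1 * top + c2 * top ^ 2 = 0) :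
    c0 = 0 ∧ c1 = 0 ∧ c2 = 0 := by
  have h5 := sq5
  have h37 := sq37
  have h185 := sqrt185
  have htop : top = 924 * (2 + √5 + √37) := by unfold top; rw [mid_gp]; ring
  -- a + b √5 + b √37 + c √185 = 0
  set a : ℚ := c0 + 2 * 924 * c1 + 46 * 924 ^ 2 * c2 with ha
  set b : ℚ := 924 * c1 + 4 * 924 ^ 2 * c2 with hb
  set c : ℚ := 2 * 924 ^ 2 * c2 with hc
  have e1 : (a : ℝ) + b * √5 + b * √37 + c * √185 = 0 := by
    rw [← h185, ha, hb, hc]
    push_cast
    rw [htop] at h
    linear_combination h - 853776 * c2 * h5 - 853776 * c2 * h37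
  have e2 : ((2 * b ^ 2 - 2 * a * c : ℚ) : ℝ) * √185 = ((a ^ 2 + 185 * c ^ 2 - 42 * b ^ 2 : ℚ) : ℝ) := by
    have h6 : (b : ℝ) * (√5 + √37) = -a - c * √185 := by linear_combination e1
    have h7 : ((b : ℝ) * (√5 + √37)) ^ 2 = (-a - c * √185) ^ 2 := by rw [h6]
    have h8 : (√185 : ℝ) ^ 2 = 185 := Real.sq_sqrt (by norm_num)
    push_cast
    linear_combination h7 + c ^ 2 * h8 - b ^ 2 * h5 - b ^ 2 * h37 - 2 * b ^ 2 * h185
  have e3 : 2 * b ^ 2 - 2 * a * c = 0 := by
    by_contra hne
    apply irr185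
    refine ⟨(a ^ 2 + 185 * c ^ 2 - 42 * b ^ 2) / (2 * b ^ 2 - 2 * a * c), ?_⟩
    have hne' : ((2 * b ^ 2 - 2 * a * c : ℚ) : ℝ) ≠ 0 := by exact_mod_cast hne
    rw [Rat.cast_div, ← e2, mul_comm, mul_div_assoc, div_self hne', mul_one]
  have e4 : a ^ 2 + 185 * c ^ 2 - 42 * b ^ 2 = 0 := by
    have : ((a ^ 2 + 185 * c ^ 2 - 42 * b ^ 2 : ℚ) : ℝ) = 0 := by
      rw [← e2, e3]; simp
    exact_mod_cast this
  have e5 : (a - 5 * c) * (a - 37 * c) = 0 := by
    linear_combination e4 + 21 * e3
  have hc0 : c = 0 := by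
    by_contra hcne
    have hsq : ∀ n : ℚ, a = n * c → (b / c) ^ 2 = n := by
      intro n hn
      have : b ^ 2 = n * c ^ 2 := by rw [hn] at e3; linear_combination e3 / 2
      field_simp
      linear_combination this
    rcases mul_eq_zero.1 e5 with h9 | h9
    · have h10 := hsq 5 (by linarith)
      apply irr5
      refine ⟨|b / c|, ?_⟩
      have h11 : ((b / c : ℚ) : ℝ) ^ 2 = 5 := by exact_mod_cast h10
      rw [Rat.cast_abs, ← Real.sqrt_sq_eq_abs, h11]
    · have h10 := hsq 37 (by linarith)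
      apply irr37
      refine ⟨|b / c|, ?_⟩
      have h11 : ((b / c : ℚ) : ℝ) ^ 2 = 37 := by exact_mod_cast h10
      rw [Rat.cast_abs, ← Real.sqrt_sq_eq_abs, h11]
  have hb0 : b = 0 := by
    rw [hc0] at e3
    have : b ^ 2 = 0 := by linear_combination e3 / 2
    exact pow_eq_zero_iff (two_ne_zero) |>.1 this
  have ha0 : a = 0 := by
    rw [hc0, hb0] at e4
    have : a ^ 2 = 0 := by linear_combination e4
    exact pow_eq_zero_iff (two_ne_zero) |>.1 this
  have k2 : c2 = 0 := by
    rw [hc0] at hc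
    linarith
  have k1 : c1 = 0 := by
    rw [hb0, k2] at hb
    linarith
  refine ⟨?_, k1, k2⟩
  rw [ha0, k1, k2] at ha
  linarith

theorem top_integral : IsIntegral ℚ top := by
  have h5 : IsIntegral ℚ (√5 : ℝ) := by
    refine ⟨X ^ 2 - C 5, by monicity!, ?_⟩
    simp [sq5]
  have h37 : IsIntegral ℚ (√37 : ℝ) := by
    refine ⟨X ^ 2 - C 37, by monicity!, ?_⟩
    simp [sq37]
  have hq : ∀ q : ℚ, IsIntegral ℚ ((q : ℚ) : ℝ) := fun q => isIntegral_algebraMap
  have htop : top = ((1848 : ℚ) : ℝ) + ((924 : ℚ) : ℝ) * √5 + ((924 : ℚ) : ℝ) * √37 := by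
    unfold top; rw [mid_gp]; norm_num
  rw [htop]
  exact ((hq _).add ((hq _).mul h5)).add ((hq _).mul h37)

theorem top_degree : 3 ≤ (minpoly ℚ top).natDegree := by
  by_contra hlt
  have hm : (minpoly ℚ top) ≠ 0 := minpoly.ne_zero top_integral
  have hev := minpoly.aeval ℚ top
  have hdeg : (minpoly ℚ top).natDegree < 3 := by omega
  rw [Polynomial.aeval_eq_sum_range' hdeg] at hev
  simp only [Finset.sum_range_succ, Finset.sum_range_zero, zero_add, pow_zero, pow_one] at hev
  obtain ⟨k0, k1, k2⟩ := indep (c0 := (minpoly ℚ top).coeff 0) (c1 := (minpoly ℚ top).coeff 1)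
    (c2 := (minpoly ℚ top).coeff 2) (by
      simp only [Rat.smul_def] at hev
      linarith)
  apply hm
  ext n
  rw [Polynomial.coeff_zero]
  rcases n with _ | _ | _ | n
  · exact k0
  · exact k1
  · exact k2
  · exact Polynomial.coeff_eq_zero_of_natDegree_lt (by omega)

/-- **Proper fractional revival with a support eigenvalue that is neither an integer nor a quadratic
integer**: there is a finite simple graph with two distinct vertices `a`, `b` such that proper
fractional revival occurs on `{a, b}` and the eigenvalue support of `a` contains an eigenvalue of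
degree at least `3` over `ℚ`. -/
theorem result : ∃ (V : Type) (_ : Fintype V) (_ : DecidableEq V) (X : SimpleGraph V)
    (_ : DecidableRel X.Adj) (a b : V), a ≠ b ∧ ProperRevival X a b ∧
      ∃ θ ∈ support X a, IsIntegral ℚ θ ∧ 3 ≤ (minpoly ℚ θ).natDegree := by
  have hd : (gp : ℂ) - (gm : ℂ) ≠ 0 := sub_ne_zero.2 gp_neC
  exact ⟨Vert 121968 mB, inferInstance, inferInstance, graphB, inferInstance, .inl false,
    .inl true, by simp, ⟨timeB, _, _, timeB_pos,
      mul_ne_zero (div_ne_zero alpha_ne hd) (div_ne_zero (sub_ne_zero.2 omp_ne) hd), columnB_a⟩,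
    top, top_mem, top_integral, top_degree⟩

end Pool.Agent.Results.MP_884c22_co.DegreeFourSupport
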